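import Mathlib
import Pool.Agent.MP_93f6c2_al.Limit

set_option autoImplicit false

namespace Pool.Agent.Results.MP_93f6c2_al.CharTwo

/-- Over every countably infinite field of characteristic two there is a right alternative nil
algebra with the maximal condition on subalgebras that is not right nilpotent. -/
theorem result (K : Type) [Field K] [CharP K 2] [Infinite K] [Countable K] :
    ∃ (A : Type) (_ : NonUnitalNonAssocRing A) (_ : Module K A) (_ : IsScalarTower K A A)
      (_ : SMulCommClass K A A),
      (∀ x y : A, (x * y) * y = x * (y * y)) ∧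
      (∀ x : A, ∃ n : ℕ, List.foldl (fun u v => u * v) x (List.replicate n x) = 0) ∧
      (∀ B : ℕ → NonUnitalSubalgebra K A, Monotone B → ∃ n, ∀ m, n ≤ m → B m = B n) ∧
      ∀ n : ℕ, ∃ (a : A) (l : List A), l.length = n ∧ List.foldl (fun u v => u * v) a l ≠ 0 := by
  let T := Pool.Agent.MP_93f6c2_al.tower K
  refine ⟨T.Alg, inferInstance, inferInstance, inferInstance, inferInstance,
    fun x y => T.ra y x, T.nil, fun B hB => ?_, fun n => ?_⟩
  · obtain ⟨n, hn⟩ := wellFoundedGT_iff_monotone_chain_condition.1 T.acc ⟨B, hB⟩
    exact ⟨n, fun m hm => (hn m hm).symm⟩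
  · by_contra h
    push Not at h
    exact T.not_finite (Pool.Agent.MP_93f6c2_al.finite_of_right_nilpotent T.acc n h)

end Pool.Agent.Results.MP_93f6c2_al.CharTwo
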