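import Mathlib
import Pool.Agent.MP_93f6c2_al.Mou3

set_option autoImplicit false

namespace Pool.Agent.Results.MP_93f6c2_al.Moufang

open Pool.Agent.MP_93f6c2_al.Mou

universe u v

/-- A right alternative nil algebra over any commutative ring with the maximal condition on
subalgebras is right nilpotent as soon as it satisfies the right Moufang identity, or two is
invertible in the ring, or the algebra has no additive two-torsion. -/
theorem result (Φ : Type u) [CommRing Φ] (A : Type v) [NonUnitalNonAssocRing A] [Module Φ A]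
    [IsScalarTower Φ A A] [SMulCommClass Φ A A]
    (hra : ∀ x y : A, (x * y) * y = x * (y * y))
    (hM : (∀ x y z : A, ((x * y) * z) * y = x * ((y * z) * y)) ∨ IsUnit (2 : Φ) ∨
      ∀ x : A, x + x = 0 → x = 0)
    (hnil : ∀ x : A, ∃ n : ℕ, List.foldl (fun u v => u * v) x (List.replicate n x) = 0)
    (hacc : ∀ B : ℕ → NonUnitalSubalgebra Φ A, Monotone B → ∃ n, ∀ m, n ≤ m → B m = B n) :
    ∃ n : ℕ, ∀ (a : A) (l : List A), l.length = n → List.foldl (fun u v => u * v) a l = 0 := by
  refine Hyp.right_nilpotent (Φ := Φ) ⟨hra, ?_, fun x => ?_, ?_⟩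
  · rcases hM with h | h | h
    · exact h
    · exact moufang_of_two hra fun x hx => (h.smul_eq_zero).1 (by rw [two_smul, hx])
    · exact moufang_of_two hra h
  · simpa only [foldl_pw] using hnil x
  · refine wellFoundedGT_iff_monotone_chain_condition.2 fun B => ?_
    obtain ⟨n, hn⟩ := hacc B B.monotone
    exact ⟨n, fun m hm => (hn m hm).symm⟩

end Pool.Agent.Results.MP_93f6c2_al.Moufang
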